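import Pool.Agent.J6H11.ASC.Main

set_option autoImplicit false

namespace Pool.Agent.Results.MP_f5e7e2_co.MomentPfaffians

open Pool.Agent.J6H11.ASC

/-- The field of fractions of `ℤ[a,q]`, where the identities of `ℤ[a,q]` are compared. -/
abbrev F : Type := FractionRing (MvPolynomial (Fin 2) ℤ)

/-- The indeterminate `a`. -/
noncomputable def aa : F := algebraMap (MvPolynomial (Fin 2) ℤ) F (MvPolynomial.X 0)

/-- The indeterminate `q`. -/
noncomputable def qq : F := algebraMap (MvPolynomial (Fin 2) ℤ) F (MvPolynomial.X 1)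

theorem inj : Function.Injective (algebraMap (MvPolynomial (Fin 2) ℤ) F) :=
  IsFractionRing.injective _ _

theorem qq_ne : qq ≠ 0 := by
  intro h
  have h1 : (MvPolynomial.X 1 : MvPolynomial (Fin 2) ℤ) = 0 := by
    apply inj
    rw [map_zero]
    exact h
  exact MvPolynomial.X_ne_zero _ h1

theorem qq_pow (m : ℕ) (hm : 0 < m) : qq ^ m ≠ 1 := by
  intro h
  have h1 : (MvPolynomial.X 1 : MvPolynomial (Fin 2) ℤ) ^ m = 1 := by
    apply inj
    rw [map_one, map_pow]
    exact h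
  have h2 := congrArg (MvPolynomial.eval (fun _ => (0 : ℤ))) h1
  rw [map_pow, MvPolynomial.eval_X, map_one, zero_pow (by omega)] at h2
  exact zero_ne_one h2

/-- Both Pfaffian evaluations of the conjecture hold for every `n ≥ 1`. With indices
`i, j = 0, ..., 2n-1` (the problem's indices minus one), the matrix of Q1 is
`(q^i - q^j) g_{i+j-1}` and that of Q2 is `(q^i - q^j) g_{i+j}`. -/
theorem result (n : ℕ) (hn : 1 ≤ n) :
    Pf n (mat1 aa qq n) =
      aa ^ (n * (n - 1)) * qq ^ (e n - 2 * ((n / 2 : ℕ) : ℤ) * (((n - 1) / 2 : ℕ) : ℤ)) *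
        ∏ k ∈ Finset.range n, qPoch qq (2 * k + 1) ∧
    Pf n (mat2 aa qq n) =
      aa ^ (n * (n - 1)) * qq ^ (e n) * (∏ k ∈ Finset.range n, qPoch qq (2 * k + 1)) *
        ∑ k ∈ Finset.range (n + 1),
          qq ^ (((n : ℤ) - 2 * k) ^ 2 / 2) * qBinom (qq ^ 2) n k * aa ^ k :=
  ⟨Q1 aa qq_ne qq_pow n hn, Q2 aa qq_ne qq_pow n hn⟩

end Pool.Agent.Results.MP_f5e7e2_co.MomentPfaffians
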